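import Pool.Agent.helper747_ug.Main

/-!
Unique games and `d`-to-`d` games of arbitrary (small) completeness: level `n ^ β` of the mixed
hierarchy (Sherali-Adams plus the basic semidefinite program) refutes soundness
`M ^ (-(C / β) log (2 / β))`, where `M = 2 d / c` and `c` is the completeness, for every alphabet.
-/

namespace Pool.Agent.Results.MP_325f1f_lc.EveryCompleteness

open Finset

/-- `f` depends only on the labels of the vertices in `S`. -/
def DependsOn {V A : Type} (S : Finset V) (f : (V → A) → ℝ) : Prop :=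
  ∀ x y : V → A, (∀ v ∈ S, x v = y v) → f x = f y

/-- `L` is a solution of level `k` of the mixed hierarchy: a normalised linear functional on the
functions of a labeling which is nonnegative on all nonnegative functions of at most `k + 2` labels
(Sherali-Adams), and such that after conditioning on at most `k` labels (the weight `g`) the matrix
of the pair moments is positive semidefinite (basic semidefinite program). Only the values of `L`
on functions of at most `k + 2` labels matter. -/
structure IsMixed {V A : Type} [Fintype V] (k : ℕ) (L : ((V → A) → ℝ) →ₗ[ℝ] ℝ) : Prop where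
  one : L (fun _ => 1) = 1
  nonneg : ∀ S : Finset V, S.card ≤ k + 2 → ∀ f : (V → A) → ℝ, DependsOn S f → (∀ x, 0 ≤ f x) →
    0 ≤ L f
  psd : ∀ S : Finset V, S.card ≤ k → ∀ g : (V → A) → ℝ, DependsOn S g → (∀ x, 0 ≤ g x) →
    ∀ c : V → A → ℝ, 0 ≤ L (fun x => g x * (∑ v, c v (x v)) ^ 2)

/-- Let `0 < c ≤ 1`, `0 < β ≤ 1`, `d ≥ 1` and `M = 2 d / c`. In every constraint satisfaction
problem with binary constraints `R e` in which each label has at most `d` compatible labels on
either side (`d = 1`: unique games), any finite alphabet, any constraint graph on `n` vertices: if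
level `k ≥ M ^ (2 ^ 10 * log (2 / β)) * n ^ β` of the mixed hierarchy has a solution of value at
least `c`, then some labeling satisfies a fraction at least
`M ^ (-(2 ^ 10 / β * log (2 / β)))` of the constraints. -/
theorem result (V A E : Type) [Fintype V] [Fintype A] [DecidableEq A] [Fintype E]
    (s t : E → V) (R : E → Finset (A × A)) (c β : ℝ) (d k : ℕ) (L : ((V → A) → ℝ) →ₗ[ℝ] ℝ)
    (hc : 0 < c) (hc1 : c ≤ 1) (hβ : 0 < β) (hβ1 : β ≤ 1) (hd : 1 ≤ d)
    (hR1 : ∀ e a, (univ.filter fun b => (a, b) ∈ R e).card ≤ d)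
    (hR2 : ∀ e b, (univ.filter fun a => (a, b) ∈ R e).card ≤ d)
    (hk : (2 * d / c) ^ (2 ^ 10 * Real.log (2 / β)) * (Fintype.card V : ℝ) ^ β ≤ k)
    (hL : IsMixed k L)
    (hval : c * (Fintype.card E : ℝ)
      ≤ ∑ e, L (fun x => if (x (s e), x (t e)) ∈ R e then 1 else 0)) :
    ∃ x : V → A, (2 * d / c) ^ (-(2 ^ 10 / β * Real.log (2 / β))) * (Fintype.card E : ℝ)
      ≤ ((univ.filter fun e => (x (s e), x (t e)) ∈ R e).card : ℝ) := by
  classical
  exact Pool.Agent.helper747_ug.main s t R c β d k L hc hc1 hβ hβ1 hd hR1 hR2 hk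
    ⟨hL.one, hL.nonneg, hL.psd⟩ hval

end Pool.Agent.Results.MP_325f1f_lc.EveryCompleteness
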