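import Pool.Agent.helper747_fn.Fault

/-!
# Unique games with imperfect completeness are hard for circuits with unreliable negations

A unique game with vertex sets of size `N` and alphabet `[q]` is given by bits: for all left vertices
`u`, all right vertices `v`, all permutations `π` of the labels and all tags `j < K`, the bit of the
position `((u, v, π), j)` tells whether the game has the constraint `π` from `u` to `v` with the tag
`j`. Only games in which every constraint `(u, v, π)` has at most one tag are considered (so no
constraint is repeated); the tag has no meaning.

The model: randomised circuits whose inputs are these bits and their negations, with gates that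
compute arbitrary nondecreasing real functions of two arguments. All circuits with AND, OR and NOT
gates can be brought into this form by doubling their size. No bound on the depth is assumed. A
randomised circuit is a finite nonempty family of circuits from which one is chosen uniformly at
random.

Faults: each negated input (the information that there is no such constraint at a position) is stuck
at `0`, independently with probability `1 / D`. The other inputs are reliable.

Result: let `q ≥ 1` and `δ > 1 / q`. For all large `N` there is `m > 0` such that for all `D ≥ 1`,
`K ≥ D (2 log N + q log q + 4)` and `ε ≥ N ^ (-1/139)` the following holds. Randomised circuits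
which accept the games with exactly `m` constraints and value at most `δ` with probability at least
`4 / 5` under faults, and the games with at least `m` constraints of which some labelling violates at
most `ε m` (so that their value is at least `1 - ε`) with probability at most `1 / 4` without
faults, need `(2 ^ (N ^ (1 / 139)) - 2) / 3` gates.

* So exponential size is necessary if an arbitrarily small constant fraction `1 / D` of the negated
  inputs is unreliable, and `K = O(D log N)` tags are enough. Without faults this would be an
  unconditional form of the Unique Games Conjecture (for circuits, instead of NP-hardness), even with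
  completeness `1 - N ^ (-1/139)` and with every alphabet of more than `1 / δ` labels.
* For `D = 1` all negated inputs are faulty: this is the case of monotone circuits, the starting
  result `MonotoneCircuits` of this problem, which is used in the proof.
* The earlier theorems with faults in the pool (2-to-1 and d-to-1 games) are about games of value
  one. For unique games of value one the statement fails: propagation of labels is done by monotone
  circuits of polynomial size, and these do not use negated inputs. So here the distinction between
  completeness one and completeness `1 - ε` is essential, and the circuits have to be fooled by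
  games with few violated constraints.

The proof: the constraints of a game without tags get random tags. The tagged game shows only the
tags of its own constraints, and the positions that the other constraints would get are as good as
random faulty inputs. So all negated inputs that depend on the game without tags can be replaced by
`0`, and this gives a monotone randomised circuit for the games without tags. The number of
constraints and the numbers of violated constraints of the labellings are the same for the game and
for the tagged game.
-/

set_option autoImplicit false

namespace Pool.Agent.Results.MP_325f1f_lc.FaultyNegations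

open Finset

/-- A circuit with the gates `0, ..., s - 1` whose inputs are the bits of the positions `e` in `E` and
their negations: `(e, true)` stands for the bit of `e` and `(e, false)` for its negation. Gate `i`
has `w i ≤ 2` inputs, namely `a i j`, each a literal (`0` or `1`) or an earlier gate; it computes a
nondecreasing function `op i` of real numbers, and its value on the values `y` of the literals is
`val y i`. The circuit accepts if the value of gate `out` is at least `τ`. -/
structure LiteralCircuit (E : Type) where
  s : ℕ
  w : Fin s → ℕ
  a : (i : Fin s) → Fin (w i) → (E × Bool) ⊕ Fin s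
  op : (i : Fin s) → (Fin (w i) → ℝ) → ℝ
  val : (E × Bool → Bool) → Fin s → ℝ
  out : Fin s
  τ : ℝ
  earlier : ∀ i j m, a i j = Sum.inr m → m < i
  mono : ∀ i, w i ≤ 2 ∧ Monotone (op i)
  spec : ∀ y i, val y i = op i (fun j =>
    Sum.elim (fun p => if y p = true then (1 : ℝ) else 0) (val y) (a i j))

/-- The positions `((u, v, π), j)`: a constraint from the left vertex `u` to the right vertex `v`
with the tag `j`, which says that the permutation `π` maps the label of `u` to the label of `v`. -/
abbrev Position (N q K : ℕ) : Type := (Fin N × Fin N × Equiv.Perm (Fin q)) × Fin K

/-- The game is the set of the positions `e` with `x e = true`. Every constraint occurs with at most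
one tag. -/
def Unrepeated {N q K : ℕ} (x : Position N q K → Bool) : Prop :=
  ∀ e e', x e = true → x e' = true → e.1 = e'.1 → e = e'

/-- The labelling satisfies the constraint. -/
def Satisfies {N q K : ℕ} (A B : Fin N → Fin q) (e : Position N q K) : Prop :=
  e.1.2.2 (A e.1.1) = B e.1.2.1

open Classical in
/-- The number of constraints of the game. -/
noncomputable def size {N q K : ℕ} (x : Position N q K → Bool) : ℕ :=
  (univ.filter fun e => x e = true).card

open Classical in
/-- The number of constraints of the game that the labelling `(A, B)` satisfies. -/
noncomputable def satisfied {N q K : ℕ} (x : Position N q K → Bool) (A B : Fin N → Fin q) : ℕ :=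
  (univ.filter fun e => x e = true ∧ Satisfies A B e).card

open Classical in
/-- The number of constraints of the game that the labelling `(A, B)` violates. -/
noncomputable def violated {N q K : ℕ} (x : Position N q K → Bool) (A B : Fin N → Fin q) : ℕ :=
  (univ.filter fun e => x e = true ∧ ¬ Satisfies A B e).card

/-- The NO games: exactly `m` constraints, and every labelling satisfies at most the fraction `δ` of
them. -/
def FarGame {N q K : ℕ} (m : ℕ) (δ : ℝ) (x : Position N q K → Bool) : Prop :=
  Unrepeated x ∧ size x = m ∧ ∀ A B : Fin N → Fin q, (satisfied x A B : ℝ) ≤ δ * m

/-- The YES games: at least `m` constraints, and some labelling violates at most `ε m` of them. -/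
def CloseGame {N q K : ℕ} (m : ℕ) (ε : ℝ) (x : Position N q K → Bool) : Prop :=
  Unrepeated x ∧ m ≤ size x ∧ ∃ A B : Fin N → Fin q, (violated x A B : ℝ) ≤ ε * m

open Classical in
/-- The values of the literals on the game `x` if the negated inputs of the positions in `Z` are
stuck at `0`. -/
noncomputable def literals {E : Type} (x : E → Bool) (Z : Set E) : E × Bool → Bool :=
  fun p => if p.2 = true then x p.1 else if p.1 ∈ Z then false else !x p.1

/-- The circuit accepts the game `x` if the negated inputs of the positions in `Z` are stuck at
`0`. -/
def LiteralCircuit.Accepts {E : Type} (C : LiteralCircuit E) (x : E → Bool) (Z : Set E) : Prop :=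
  C.τ ≤ C.val (literals x Z) C.out

/-- The probability that the game `x` is accepted by a circuit that is chosen uniformly at random
from the family `C`, without faults. -/
noncomputable def acceptance {E R : Type} (C : R → LiteralCircuit E) (x : E → Bool) : ℝ :=
  (Nat.card {ρ : R // (C ρ).Accepts x ∅} : ℝ) / Nat.card R

/-- The probability that the game `x` is accepted by a circuit that is chosen uniformly at random
from the family `C`, if each negated input is stuck at `0` independently with probability `1 / D`
(each position `e` gets a random number `f e` from `0` to `D - 1`, and `0` means a fault). -/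
noncomputable def faultyAcceptance {E R : Type} (C : R → LiteralCircuit E) (D : ℕ)
    (x : E → Bool) : ℝ :=
  (Nat.card {v : R × (E → Fin D) // (C v.1).Accepts x {e | (v.2 e : ℕ) = 0}} : ℝ) /
    Nat.card (R × (E → Fin D))

/-- Let `q ≥ 1` and `δ > 1 / q`. There is `N0` such that for all `N ≥ N0` there is `m > 0` with the
following property.
(A) Let `D ≥ 1`, `K ≥ D (2 log N + q log q + 4)` and `ε ≥ N ^ (-1/139)`. If a finite nonempty family
of circuits on literals with nondecreasing real gates of fan-in at most two and with at most `s`
gates accepts every unique game (with `N + N` vertices, alphabet `[q]` and tags `j < K` at the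
constraints) with exactly `m` constraints and value at most `δ` with probability at least `4 / 5`,
even if each negated input is stuck at `0` independently with probability `1 / D`, and every game
with at least `m` constraints of which some labelling violates at most `ε m` with probability at most
`1 / 4` (without faults), then `2 ^ (N ^ (1 / 139)) ≤ 3 s + 2`.
(B) If `ε + δ < 1` then no game is of both kinds. -/
theorem result (q : ℕ) (hq : 1 ≤ q) (δ : ℝ) (hδ : 1 / (q : ℝ) < δ) :
    ∃ N0 : ℕ, ∀ N : ℕ, N0 ≤ N → ∃ m : ℕ, 0 < m ∧
      (∀ D K : ℕ, 1 ≤ D → D * (2 * Real.log N + q * Real.log q + 4) ≤ K →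
        ∀ ε : ℝ, (N : ℝ) ^ (-(1 / 139) : ℝ) ≤ ε →
        ∀ (R : Type) [Finite R] [Nonempty R] (C : R → LiteralCircuit (Position N q K)) (s : ℕ),
          (∀ ρ, (C ρ).s ≤ s) →
          (∀ x, FarGame m δ x → 4 / 5 ≤ faultyAcceptance C D x) →
          (∀ x, CloseGame m ε x → acceptance C x ≤ 1 / 4) →
          (2 : ℝ) ^ ((N : ℝ) ^ (1 / 139 : ℝ)) ≤ 3 * s + 2) ∧
      ∀ (K : ℕ) (ε : ℝ), ε + δ < 1 →
        ∀ x : Position N q K → Bool, ¬ (FarGame m δ x ∧ CloseGame m ε x) := by
  classical
  obtain ⟨N0, H⟩ := Pool.Agent.helper747_fn.ug_fault q hq δ hδ
  refine ⟨N0, fun N hN => ?_⟩
  obtain ⟨m, hm, H⟩ := H N hN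
  refine ⟨m, hm, ?_, ?_⟩
  · intro D K hD hK ε hε R _ _ C s hs h1 h2
    let _ : Fintype R := Fintype.ofFinite R
    have hR : (0 : ℝ) < Fintype.card R := by exact_mod_cast Fintype.card_pos
    have hDR : (0 : ℝ) < D := by exact_mod_cast hD
    have hlit : ∀ (x : Position N q K → Bool) (Z : Set (Position N q K)),
        Pool.Agent.Y630.TF.lit x Z = literals x Z := by
      intro x Z
      funext q
      unfold Pool.Agent.Y630.TF.lit literals
      by_cases hq : q.2 = true
      · rw [if_pos hq, if_pos hq]
      · rw [if_neg hq, if_neg hq]
        by_cases hZ : q.1 ∈ Z
        · simp [hZ]
        · simp [hZ]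
    have hone : ∀ x : Position N q K → Bool,
        Pool.Agent.helper747_fn.OneTag x → Unrepeated x := by
      intro x hx e e' he he' h
      obtain ⟨c, j⟩ := e
      obtain ⟨c', j'⟩ := e'
      have h' : c = c' := h
      subst h'
      rw [hx c j j' he he']
    set C' : R → Pool.Agent.W969.MC.RC (Position N q K × Bool) := fun ρ => ⟨(C ρ).s, ∅, (C ρ).w,
      (C ρ).a, (C ρ).op, fun _ _ => 0, (C ρ).val, (C ρ).out, (C ρ).τ, (C ρ).earlier,
      fun i _ => (C ρ).mono i, fun i hi => absurd hi (Finset.notMem_empty i), (C ρ).spec⟩ with hC'
    refine H D K hD hK ε hε R C' s (fun _ => rfl) hs (fun x hx => ?_) (fun x hx => ?_)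
    · have h3 := h1 x ⟨hone x hx.1, by
        unfold size
        convert hx.2.1, fun A B => by
        have h4 := hx.2.2 A B
        unfold Pool.Agent.W906.MU.Sat at h4
        unfold satisfied Satisfies
        convert h4⟩
      unfold faultyAcceptance at h3
      rw [le_div_iff₀ (by
        rw [Nat.card_eq_fintype_card, Fintype.card_prod, Fintype.card_fun, Fintype.card_fin]
        push_cast
        positivity)] at h3
      rw [Nat.card_eq_fintype_card (α := R × (Position N q K → Fin D)), Fintype.card_prod,
        Fintype.card_fun, Fintype.card_fin] at h3
      refine (le_of_eq ?_).trans (h3.trans (le_of_eq ?_))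
      · push_cast
        rfl
      congr 1
      show Nat.card ↥{v : R × (Position N q K → Fin D) |
        (C v.1).Accepts x {c | (v.2 c : ℕ) = 0}} = _
      rw [Nat.card_coe_set_eq]
      congr 1
      ext v
      show (C v.1).τ ≤ (C v.1).val (literals x {c | (v.2 c : ℕ) = 0}) (C v.1).out ↔
        (C v.1).τ ≤ (C v.1).val (Pool.Agent.Y630.TF.lit x (Pool.Agent.Y630.NW.Flt v.2)) (C v.1).out
      rw [hlit]
      rfl
    · have h3 := h2 x ⟨hone x hx.1, by
        unfold size
        convert hx.2.1, by
        obtain ⟨A, B, h4⟩ := hx.2.2
        refine ⟨A, B, ?_⟩
        unfold Pool.Agent.W906.MU.Sat at h4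
        unfold violated Satisfies
        convert h4⟩
      unfold acceptance at h3
      rw [div_le_iff₀ (by rw [Nat.card_eq_fintype_card]; exact hR),
        Nat.card_eq_fintype_card (α := R)] at h3
      refine (le_of_eq ?_).trans h3
      congr 1
      show _ = Nat.card ↥{ρ : R | (C ρ).Accepts x ∅}
      rw [Nat.card_coe_set_eq]
      congr 1
      ext ρ
      show (C ρ).τ ≤ (C ρ).val (Pool.Agent.Y630.TF.lit x ∅) (C ρ).out ↔
        (C ρ).τ ≤ (C ρ).val (literals x ∅) (C ρ).out
      rw [hlit]
  · rintro K ε hεδ x ⟨⟨-, h1, h2⟩, -, -, A, B, h3⟩
    have h4 := h2 A B
    have h5 : satisfied x A B + violated x A B = m := by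
      rw [← h1]
      unfold satisfied violated size
      rw [← Finset.filter_filter, ← Finset.filter_filter,
        Finset.card_filter_add_card_filter_not]
    have h6 : (satisfied x A B : ℝ) + violated x A B = m := by exact_mod_cast h5
    have h7 : (0 : ℝ) < m := by exact_mod_cast hm
    nlinarith

end Pool.Agent.Results.MP_325f1f_lc.FaultyNegations
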