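import Pool.Agent.helper747_lr.Final

/-!
Reductions from sparse systems of linear equations over the field of two elements to unique games
that are local (each constraint is determined by few right-hand sides, each honest label by few
variables) must be large: completeness `1 - ε` and soundness `1 - γ` force size
`(c n) ^ (1 / ρ)` with `ρ` of order `ε log (1 / ε) / γ ^ 2`. This is unconditional.

Proof. Average the pseudo-expectations of the system over all right-hand sides: a local function of
the right-hand side and of the assignment has the same average as for the right-hand side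
`lhs c x` of a uniformly random assignment `x`. So the average completeness of the honest labelings
is attained, up to `2 ^ (-n)`, by a solution of a high level of the mixed hierarchy (Sherali-Adams
plus the basic semidefinite program) for the game of some right-hand side which is violated by every
assignment in almost half of the equations; and the rounding theorem of the starting result
`SharpTradeoff` (`Pool/Agent/TH522/UG`) applies to this game if it is small.
-/

set_option autoImplicit false

namespace Pool.Agent.Results.MP_325f1f_lc.LocalReductionSize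

open Finset

/-- the left-hand side of equation `j`, `x (c j 0) + x (c j 1) + x (c j 2)`, at the assignment
`x` -/
def lhs {n m : ℕ} (c : Fin m → Fin 3 → Fin n) (x : Fin n → ZMod 2) (j : Fin m) : ZMod 2 :=
  ∑ i, x (c j i)

/-- every assignment violates at least `(1 / 2 - η) * m` of the equations `lhs c x j = b j` -/
def IsFar {n m : ℕ} (c : Fin m → Fin 3 → Fin n) (η : ℝ) (b : Fin m → ZMod 2) : Prop :=
  ∀ x : Fin n → ZMod 2, (1 / 2 - η) * m ≤ ((univ.filter fun j => lhs c x j ≠ b j).card : ℝ)

/-- A local reduction from the systems with left-hand sides `lhs c` to unique games with alphabet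
`A` and edges `(s e, t e)`: `π e b` is the permutation of the edge `e` for the right-hand side `b`,
and `h x` is the honest labeling for the assignment `x`, to be used in the game of the right-hand
side `lhs c x`, which `x` solves. -/
structure IsReduction {n m : ℕ} {V E A : Type} [Fintype E] [DecidableEq A]
    (c : Fin m → Fin 3 → Fin n) (s t : E → V) (π : E → (Fin m → ZMod 2) → Equiv.Perm A)
    (h : (Fin n → ZMod 2) → V → A) (q w : ℕ) (ε : ℝ) : Prop where
  /-- every permutation is determined by `q` entries of the right-hand side -/
  reads : ∀ e, ∃ S : Finset (Fin m), S.card ≤ q ∧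
    ∀ b b', (∀ j ∈ S, b j = b' j) → π e b = π e b'
  /-- every honest label is determined by the values of `w` variables -/
  local_labels : ∀ v, ∃ T : Finset (Fin n), T.card ≤ w ∧
    ∀ x x', (∀ i ∈ T, x i = x' i) → h x v = h x' v
  /-- on average over the assignments, the honest labeling violates at most a fraction `ε` of the
  edges -/
  complete : ∑ x : Fin n → ZMod 2, ((univ.filter fun e => π e (lhs c x) (h x (s e)) ≠
    h x (t e)).card : ℝ) ≤ ε * Fintype.card E * 2 ^ n

/-- For every `η > 0` there are, for all large `n`, sparse systems of `m ≤ M * n` equations in `n`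
variables over the field of two elements, with three different variables in each equation, some of
whose right-hand sides are far from satisfiable, and such that every local reduction from these
systems to unique games with completeness `1 - ε` and soundness `1 - γ` (on the right-hand sides
that are far from satisfiable no labeling satisfies a fraction `1 - γ` of the edges) has more than
`(c0 n / (w log (2 / γ))) ^ (1 / ρ)` vertices, whenever `2 ^ 31 ε log (2 / ρ) ≤ ρ γ ^ 2`. -/
theorem result (η : ℝ) (hη : 0 < η) :
    ∃ M : ℕ, ∃ c0 : ℝ, 0 < c0 ∧ ∃ n0 : ℕ, ∀ n : ℕ, n0 ≤ n →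
      ∃ (m : ℕ) (c : Fin m → Fin 3 → Fin n),
        n ≤ 2 * m ∧ m ≤ M * n ∧ (∀ j, Function.Injective (c j)) ∧ (∃ b, IsFar c η b) ∧
        ∀ (V E A : Type) [Fintype V] [Fintype E] [Fintype A] [DecidableEq A] (s t : E → V)
          (π : E → (Fin m → ZMod 2) → Equiv.Perm A) (h : (Fin n → ZMod 2) → V → A)
          (q w : ℕ) (ε γ ρ : ℝ),
          IsReduction c s t π h q w ε → (q : ℝ) ≤ c0 * n → 1 ≤ w → 1 ≤ ε * 2 ^ n →
          0 < γ → γ < 1 → 0 < ρ → ρ ≤ 1 → 2 ^ 31 * (ε * Real.log (2 / ρ)) ≤ ρ * γ ^ 2 →
          (∀ b, IsFar c η b → ∀ X : V → A,
            ((univ.filter fun e => π e b (X (s e)) = X (t e)).card : ℝ) <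
              (1 - γ) * Fintype.card E) →
          (c0 * n / (w * Real.log (2 / γ))) ^ (1 / ρ) < Fintype.card V := by
  obtain ⟨M, c0, hc0, n0, h0⟩ := Pool.Agent.helper747_lr.size_unique η hη
  refine ⟨M, c0, hc0, n0, fun n hn => ?_⟩
  obtain ⟨m, c, h1, h2, h3, h4, h5⟩ := h0 n hn
  refine ⟨m, c, h1, h2, h3, h4, ?_⟩
  intro V E A _ _ _ _ s t π h q w ε γ ρ hR hq hw hε hγ hγ1 hρ hρ1 hερ hsound
  exact h5 V E A s t π h w q ε γ ρ hR.reads hR.local_labels hR.complete hq hw hε hγ hγ1 hρ hρ1 hερ
    hsound

end Pool.Agent.Results.MP_325f1f_lc.LocalReductionSize
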