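import Pool.Agent.helper747_lr.Final

/-!
Local reductions from sparse systems of linear equations over the field of two elements to unique
games, and to `d`-to-`d` games, with arbitrary completeness `κ` (for instance `κ = 1 / 2`, the
completeness for which the 2-to-2 theorem gives hardness of unique games): soundness `δ` forces size
`n ^ (1 / β)` with `1 / β` of order `log (1 / δ) / log log (1 / δ)`. This is unconditional.

The proof is the one of `LocalReductionSize`, with the rounding theorem of `EveryCompleteness`
(`Pool/Agent/helper747_ug`).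
-/

set_option autoImplicit false

namespace Pool.Agent.Results.MP_325f1f_lc.LocalReductionValues

open Finset

/-- the left-hand side of equation `j`, `x (c j 0) + x (c j 1) + x (c j 2)`, at the assignment
`x` -/
def lhs {n m : ℕ} (c : Fin m → Fin 3 → Fin n) (x : Fin n → ZMod 2) (j : Fin m) : ZMod 2 :=
  ∑ i, x (c j i)

/-- every assignment violates at least `(1 / 2 - η) * m` of the equations `lhs c x j = b j` -/
def IsFar {n m : ℕ} (c : Fin m → Fin 3 → Fin n) (η : ℝ) (b : Fin m → ZMod 2) : Prop :=
  ∀ x : Fin n → ZMod 2, (1 / 2 - η) * m ≤ ((univ.filter fun j => lhs c x j ≠ b j).card : ℝ)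

/-- A local reduction from the systems with left-hand sides `lhs c` to `d`-to-`d` games with
alphabet `A` and edges `(s e, t e)`: `R e b` is the set of pairs of labels allowed by the edge `e`
for the right-hand side `b`, and `h x` is the honest labeling for the assignment `x`, to be used in
the game of the right-hand side `lhs c x`, which `x` solves. -/
structure IsReduction {n m : ℕ} {V E A : Type} [Fintype E] [Fintype A] [DecidableEq A]
    (c : Fin m → Fin 3 → Fin n) (s t : E → V) (R : E → (Fin m → ZMod 2) → Finset (A × A))
    (h : (Fin n → ZMod 2) → V → A) (d q w : ℕ) (κ : ℝ) : Prop where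
  /-- every label has at most `d` compatible labels at the other end of an edge -/
  right : ∀ e b a, (univ.filter fun a' => (a, a') ∈ R e b).card ≤ d
  /-- every label has at most `d` compatible labels at the other end of an edge -/
  left : ∀ e b a', (univ.filter fun a => (a, a') ∈ R e b).card ≤ d
  /-- every constraint is determined by `q` entries of the right-hand side -/
  reads : ∀ e, ∃ S : Finset (Fin m), S.card ≤ q ∧
    ∀ b b', (∀ j ∈ S, b j = b' j) → R e b = R e b'
  /-- every honest label is determined by the values of `w` variables -/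
  local_labels : ∀ v, ∃ T : Finset (Fin n), T.card ≤ w ∧
    ∀ x x', (∀ i ∈ T, x i = x' i) → h x v = h x' v
  /-- on average over the assignments, the honest labeling satisfies at least a fraction `κ` of the
  edges -/
  complete : κ * Fintype.card E * 2 ^ n ≤ ∑ x : Fin n → ZMod 2,
    ((univ.filter fun e => (h x (s e), h x (t e)) ∈ R e (lhs c x)).card : ℝ)

/-- For every `η > 0` there are, for all large `n`, sparse systems of `m ≤ M * n` equations in `n`
variables over the field of two elements, with three different variables in each equation, some of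
whose right-hand sides are far from satisfiable, and with the following property. Let
`0 < β ≤ 1`. Every local reduction from these systems to `d`-to-`d` games (`d = 1`: unique games)
with completeness `κ`, in which for the right-hand sides that are far from satisfiable no labeling
satisfies a fraction `(4 d / κ) ^ (- (2 ^ 10 / β) log (2 / β))` of the edges, has more than
`(c0 n / (w (4 d / κ) ^ (2 ^ 10 log (2 / β)))) ^ (1 / β)` vertices. -/
theorem result (η : ℝ) (hη : 0 < η) :
    ∃ M : ℕ, ∃ c0 : ℝ, 0 < c0 ∧ ∃ n0 : ℕ, ∀ n : ℕ, n0 ≤ n →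
      ∃ (m : ℕ) (c : Fin m → Fin 3 → Fin n),
        n ≤ 2 * m ∧ m ≤ M * n ∧ (∀ j, Function.Injective (c j)) ∧ (∃ b, IsFar c η b) ∧
        ∀ (V E A : Type) [Fintype V] [Fintype E] [Fintype A] [DecidableEq A] (s t : E → V)
          (R : E → (Fin m → ZMod 2) → Finset (A × A)) (h : (Fin n → ZMod 2) → V → A)
          (d q w : ℕ) (κ β : ℝ),
          IsReduction c s t R h d q w κ → 1 ≤ d → (q : ℝ) ≤ c0 * n → 1 ≤ w → 2 ≤ κ * 2 ^ n →
          κ ≤ 1 → 0 < β → β ≤ 1 →
          (∀ b, IsFar c η b → ∀ X : V → A,
            ((univ.filter fun e => (X (s e), X (t e)) ∈ R e b).card : ℝ) <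
              (4 * d / κ) ^ (-(2 ^ 10 / β * Real.log (2 / β))) * Fintype.card E) →
          (c0 * n / (w * (4 * d / κ) ^ (2 ^ 10 * Real.log (2 / β)))) ^ (1 / β) <
            Fintype.card V := by
  obtain ⟨M, c0, hc0, n0, h0⟩ := Pool.Agent.helper747_lr.size_dtod η hη
  refine ⟨M, c0, hc0, n0, fun n hn => ?_⟩
  obtain ⟨m, c, h1, h2, h3, h4, h5⟩ := h0 n hn
  refine ⟨m, c, h1, h2, h3, h4, ?_⟩
  intro V E A _ _ _ _ s t R h d q w κ β hR hd hq hw hκ hκ1 hβ hβ1 hsound
  exact h5 V E A s t R h d w q κ β hd hR.right hR.left hR.reads hR.local_labels hR.complete hq hw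
    hκ hκ1 hβ hβ1 hsound

end Pool.Agent.Results.MP_325f1f_lc.LocalReductionValues
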